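import Mathlib
import Pool.Agent.Q113.TR.Generic

set_option autoImplicit false

open Pool.Agent.Q113.TR Pool.Agent.Helper51.SymbolDefs

/-- For every prime `p`, every `r` with `2 ≤ r ≤ p - 1` that does not divide `p - 1` and every
field `k` with a primitive `p`-th root of unity, the generic symbol algebra `(α, β)_p` over
`k(α, β)` is a central division algebra of degree `p` with a subspace `V` of dimension greater than
`⌊(p² - 1) / r⌋` such that the reduced trace of `v ^ r` is zero for all `v` in `V`. -/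
theorem Pool.Agent.Results.MP_064e41_al.BoundFails.result
    (k : Type) [Field k] (p r : ℕ) (hp : p.Prime) (h2 : 2 ≤ r) (hrp : r ≤ p - 1)
    (hr : ¬ r ∣ p - 1) (ω : k) (hω : IsPrimitiveRoot ω p) :
    IsCentralDivision (RF2 k) (GenSymb k p ω) (p ^ 2) ∧
    HasTraceVanishing (RF2 k) (GenSymb k p ω) r ((p ^ 2 - 1) / r) := by
  have hω' : IsPrimitiveRoot (cst k ω) p := hω.map_of_injective (cst k).injective
  obtain ⟨V, hV1, hV2⟩ := exists_space hp hω' (ind_ne_zero k 1) (ind_ne_zero k 0) r h2 hrp hr
  exact ⟨⟨genSymb_div k hp.two_le hω,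
    symb_central hp.two_le hω' (ind_ne_zero k 1) (ind_ne_zero k 0),
    finrank_symb_eq hp.two_le hω' (ind_ne_zero k 1) (ind_ne_zero k 0)⟩, _,
    rt_isReducedTrace hp.two_le hω' (ind_ne_zero k 1) (ind_ne_zero k 0), V, hV2, hV1⟩
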